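import Pool.Agent.Helper976_Meander.Part4
import Pool.Agent.Helper976_Meander.Part5
import Pool.Agent.Helper976_Meander.Part6
import Pool.Agent.Helper976_Meander.Part11

set_option autoImplicit false

/-!
# Closed meanders: the critical exponent is at least `3 / 2`

Let `M_n` be the number of closed meanders of order `n` and `ρ = R²` the limit of `M_n ^ (1 / n)`.
Then `2 n M_n ≤ ρ ^ n` for every `n ≥ 1`, `∑ M_n / ρ ^ n ≤ 1`, and
`∑_{n ≤ K} n M_n / ρ ^ n ≤ 4 √K`, so every interval `(K, 2 K]` contains an `n` with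
`M_n ≤ 8 ρ ^ n / n ^ (3 / 2)`. If `M_n ~ C R ^ (2 n) / n ^ α` then `α ≥ 3 / 2`.

Proof. A closed meander `B` can be inserted into a closed meander `A` at the gap before the left
end `x` of any upper arc of `A`, and the two curves are joined by replacing the upper arcs
`(c, d)`, `(d + 1, b)` with `(d, d + 1)`, `(c, b)`, where `d` is the last point of `B` and `d + 1`
is the point `x` of `A`. The result is a closed meander with a marked cut interval (the points of
`B`), every cut interval of a meander arises in this way exactly once, and a meander of order `n`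
has at most `n` cut intervals (one for each `d`; two different ones ending at the same `d` are
excluded by parity). Two cut intervals are nested or disjoint, so the number `c` of cut intervals
satisfies `c (glue A B) ≤ c A + c B + 1`. With `Y = ∑ μ_n t ^ n`, `μ_n = M_n / ρ ^ n`, `D = t Y'`,
`E = t D'`, the generating functions of the first moment `κ_n = ∑ c / ρ ^ n` and of the second
moment `θ_n = ∑ c² / ρ ^ n` satisfy `κ = D Y ≤ D` and `θ ≤ (E Y + D²) Y + D² Y + D Y`. The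
Cauchy-Schwarz inequality `(E Y + D²)² = (t κ')² ≤ E θ` gives `D³ ≤ E Y ≤ E`, a differential
inequality which forces `D² (1 - t) ≤ 4 / 3`.
-/

namespace Pool.Agent.Results.MP_fda85d_co.ExponentThreeHalves

open Filter Topology Finset Pool.Agent.Helper976.Meander

/-- The number of closed meanders of order `n`: pairs of arch systems on the points
`0, ..., 2 n - 1` (one above and one below the line) whose union is connected. -/
noncomputable def meanders (n : ℕ) : ℕ :=
  {p : (ℕ → ℕ) × (ℕ → ℕ) | Arch n p.1 ∧ Arch n p.2 ∧ Conn n p.1 p.2}.ncard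

theorem meanders_eq (n : ℕ) : meanders n = M n := by
  rw [M_eq_ncard]
  unfold meanders
  congr 1
  ext p
  exact ⟨fun h => ⟨h.1, h.2.1, h.2.2⟩, fun h => ⟨h.up, h.down, h.conn⟩⟩

/-- The number `M_n` of closed meanders of order `n` has a growth rate `ρ`; it is at most
`ρ ^ n / (2 n)` for every `n ≥ 1`; `∑_{n ≥ 1} M_n / ρ ^ n ≤ 1`;
`∑_{n ≤ K} n M_n / ρ ^ n ≤ 4 √K` for every `K ≥ 1`; every interval `(K, 2 K]` contains an `n`
with `n ^ (3 / 2) M_n ≤ 8 ρ ^ n`; and in a power law `M_n ~ C R ^ (2 n) / n ^ α` one has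
`R² = ρ` and `α ≥ 3 / 2`. -/
theorem result :
    ∃ ρ : ℝ, 1 ≤ ρ ∧ Tendsto (fun n : ℕ => (meanders n : ℝ) ^ (1 / (n : ℝ))) atTop (𝓝 ρ) ∧
      (∀ n : ℕ, 1 ≤ n → 2 * n * (meanders n : ℝ) ≤ ρ ^ n) ∧
      (∀ K : ℕ, ∑ n ∈ Ico 1 (K + 1), (meanders n : ℝ) / ρ ^ n ≤ 1) ∧
      (∀ K : ℕ, 1 ≤ K →
        ∑ n ∈ Ico 1 (K + 1), (n : ℝ) * ((meanders n : ℝ) / ρ ^ n) ≤ 4 * Real.sqrt K) ∧
      (∀ K : ℕ, 1 ≤ K → ∃ n : ℕ, K < n ∧ n ≤ 2 * K ∧
        (n : ℝ) ^ (3 / 2 : ℝ) * (meanders n : ℝ) ≤ 8 * ρ ^ n) ∧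
      ∀ C R α : ℝ, 0 < C → 0 < R →
        Tendsto (fun n : ℕ => (meanders n : ℝ) / (C * R ^ (2 * n) / (n : ℝ) ^ α)) atTop (𝓝 1) →
        R ^ 2 = ρ ∧ 3 / 2 ≤ α := by
  obtain ⟨ρ, h1, h2, h3⟩ := exists_rate M_one_pos sum_le M_le
  have h4 := two_n_le h1 n_M_sq h3
  have e : meanders = M := funext meanders_eq
  rw [e]
  have H := mom h1 h3
  have h5 : ∀ K : ℕ, 1 ≤ K →
      ∑ n ∈ Ico 1 (K + 1), (n : ℝ) * ((M n : ℝ) / ρ ^ n) ≤ 4 * Real.sqrt K := by
    intro K hK
    refine le_trans (le_of_eq ?_) (sum_n_bound H K hK)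
    refine Finset.sum_congr rfl ?_
    intro n hn
    rw [mu_of_pos (Finset.mem_Ico.1 hn).1]
  have h6 := exists_small h1 h5
  refine ⟨ρ, h1, h2, h4, ?_, h5, h6, ?_⟩
  · intro K
    refine le_trans (le_of_eq ?_) (sum_bound H (Ico 1 (K + 1)))
    refine Finset.sum_congr rfl ?_
    intro n hn
    rw [mu_of_pos (Finset.mem_Ico.1 hn).1]
  · intro C R α hC hR h
    obtain ⟨a1, a2⟩ := power_law (fun n hn => pos_of M_one_pos sum_le hn) h1 h2 hC hR h
    exact ⟨a1, alpha_ge h1 hC a2 h6⟩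

end Pool.Agent.Results.MP_fda85d_co.ExponentThreeHalves
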